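import Pool.Agent.Q229.CD.Red

/-!
# Comparability digraphs: correctness of the reduction
-/

set_option autoImplicit false

namespace Q229.CD

open Pool.Agent.NPC Pool.Agent.NPC.WC648 Pool.Agent.H622R2

variable {φ : List (NV × NV × NV)}

/-- the label of a vertex -/
def lb (φ : List (NV × NV × NV)) (i : Fin (red φ).length) : Lb := (Ls φ).getD i (0, 0, v0)

theorem red_length (φ : List (NV × NV × NV)) : (red φ).length = (Ls φ).length := mat_length _ _

theorem lb_mem (i : Fin (red φ).length) : lb φ i ∈ Ls φ := by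
  unfold lb
  have hi : i.1 < (Ls φ).length := lt_of_lt_of_eq i.2 (red_length φ)
  rw [List.getD_eq_getElem _ _ hi]
  exact List.getElem_mem hi

theorem exists_lb {z : Lb} (hz : z ∈ Ls φ) : ∃ i, lb φ i = z := by
  obtain ⟨i, hi, rfl⟩ := List.getElem_of_mem hz
  refine ⟨⟨i, lt_of_lt_of_eq hi (red_length φ).symm⟩, ?_⟩
  unfold lb
  rw [List.getD_eq_getElem _ _ hi]

theorem adjL_irrefl (x : Lb) : adjL x x = false := by
  have h1 : (decide (x.1 = 1) && decide (x.1 = 0)) = false := by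
    simp only [Bool.and_eq_false_iff, decide_eq_false_iff_not]
    omega
  rcases x with ⟨a, b, c⟩
  unfold adjL
  simp only [decide_true, Bool.and_true] at h1 ⊢
  rw [h1]
  have h2 : (decide (a = 0) && decide (5 < a)) = false := by
    simp only [Bool.and_eq_false_iff, decide_eq_false_iff_not]
    omega
  rw [h2]
  simp only [Bool.false_or, decide_eq_false_iff_not]
  intro h
  simp only [Ex, List.mem_cons, Prod.mk.injEq, List.not_mem_nil, or_false] at h
  omega

theorem arc_iff (i j : Fin (red φ).length) :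
    arc (red φ) i j ↔ adjL (lb φ i) (lb φ j) = true := by
  have hi : i.1 < (Ls φ).length := lt_of_lt_of_eq i.2 (red_length φ)
  have hj : j.1 < (Ls φ).length := lt_of_lt_of_eq j.2 (red_length φ)
  have h1 : ((red φ).getD i []).getD j false = adjL (lb φ i) (lb φ j) := by
    have h2 := entry_mat (Ls φ) adjL i.1 j.1 hi hj
    unfold entry at h2
    unfold red lb
    rw [h2, List.getD_eq_getElem _ _ hi, List.getD_eq_getElem _ _ hj]
  unfold arc
  rw [h1]
  constructor
  · exact fun h => h.2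
  · intro h
    refine ⟨?_, h⟩
    rintro rfl
    rw [adjL_irrefl] at h
    exact Bool.noConfusion h

theorem mem_Ls {z : Lb} : z ∈ Ls φ ↔ ∃ t i, φ[i]? = some t ∧
    (z = (0, 0, t.1) ∨ z = (0, 0, t.2.1) ∨ z = (0, 0, t.2.2) ∨ z = (1, 0, t.1) ∨
      z = (1, 0, t.2.1) ∨ z = (1, 0, t.2.2) ∨ z = (2, i, v0) ∨ z = (3, i, v0) ∨
      z = (4, i, v0) ∨ z = (5, i, v0) ∨ z = (6, i, t.2.2) ∨ z = (7, i, t.2.1) ∨
      z = (8, i, t.1)) := by
  unfold Ls
  simp only [List.mem_flatMap, List.mem_zipIdx_iff_getElem?, Prod.exists, List.mem_cons,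
    List.not_mem_nil, or_false]

section Forward

variable {lt : Fin (red φ).length → Fin (red φ).length → Prop}

theorem tieL (h : CompOrdering (arc (red φ)) lt) {a b c : Fin (red φ).length} {x y z : Lb}
    (ha : lb φ a = x) (hb : lb φ b = y) (hc : lb φ c = z) (h1 : adjL x y = true)
    (h2 : adjL y z = true) (h3 : adjL x z = false) : lt a b ↔ lt c b := by
  refine h.tie (fun x hx => hx.1 rfl) ?_ ?_ ?_
  · rw [arc_iff, ha, hb, h1]
  · rw [arc_iff, hb, hc, h2]
  · rw [arc_iff, ha, hc, h3]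
    exact Bool.false_ne_true

theorem forward (h : IsComp (arc (red φ))) : NAE φ := by
  classical
  obtain ⟨lt, h⟩ := h
  have hord := h.order
  refine ⟨fun v => decide (∃ p q, lb φ p = (1, 0, v) ∧ lb φ q = (0, 0, v) ∧ lt p q), ?_⟩
  -- the value of a variable is seen at every connector
  have hub : ∀ (v : NV) (i r : ℕ) (s o : Fin (red φ).length) (z : Lb), 5 < r →
      (1, 0, v) ∈ Ls φ → (0, 0, v) ∈ Ls φ → lb φ s = (r, i, v) → lb φ o = z →
      adjL (r, i, v) z = true → adjL (0, 0, v) z = false →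
      ((∃ p q, lb φ p = (1, 0, v) ∧ lb φ q = (0, 0, v) ∧ lt p q) ↔ lt s o) := by
    intro v i r s o z hr hm1 hm0 hs ho h1 h2
    have e1 : adjL (1, 0, v) (0, 0, v) = true := by simp [adjL]
    have e2 : adjL (0, 0, v) (r, i, v) = true := by simp [adjL, hr]
    have e3 : adjL (1, 0, v) (r, i, v) = false := by
      simp only [adjL, Ex]
      simp
      omega
    have key : ∀ p q, lb φ p = (1, 0, v) → lb φ q = (0, 0, v) → (lt p q ↔ lt s o) := by
      intro p q hp hq
      have t1 := tieL h hp hq hs e1 e2 e3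
      have t2 := tieL h hq hs ho e2 h1 h2
      have hne1 : q ≠ s := by
        rintro rfl
        rw [hq] at hs
        have := congrArg Prod.fst hs
        simp only at this
        omega
      have hne2 : o ≠ s := by
        rintro rfl
        rw [hs] at ho
        rw [← ho, adjL_irrefl] at h1
        exact Bool.noConfusion h1
      rw [t1, ← h.not_lt hne1, t2, h.not_lt hne2]
    constructor
    · rintro ⟨p, q, hp, hq, hpq⟩
      exact (key p q hp hq).1 hpq
    · intro h3
      obtain ⟨p, hp⟩ := exists_lb hm1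
      obtain ⟨q, hq⟩ := exists_lb hm0
      exact ⟨p, q, hp, hq, (key p q hp hq).2 h3⟩
  intro t ht
  obtain ⟨i, hi⟩ := List.getElem?_of_mem ht
  have hm : ∀ z : Lb, (z = (0, 0, t.1) ∨ z = (0, 0, t.2.1) ∨ z = (0, 0, t.2.2) ∨ z = (1, 0, t.1) ∨
      z = (1, 0, t.2.1) ∨ z = (1, 0, t.2.2) ∨ z = (2, i, v0) ∨ z = (3, i, v0) ∨
      z = (4, i, v0) ∨ z = (5, i, v0) ∨ z = (6, i, t.2.2) ∨ z = (7, i, t.2.1) ∨
      z = (8, i, t.1)) → z ∈ Ls φ := fun z hz => mem_Ls.2 ⟨t, i, hi, hz⟩
  obtain ⟨a, ha⟩ := exists_lb (hm (2, i, v0) (by simp))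
  obtain ⟨b, hb⟩ := exists_lb (hm (3, i, v0) (by simp))
  obtain ⟨c, hc⟩ := exists_lb (hm (4, i, v0) (by simp))
  obtain ⟨d, hd⟩ := exists_lb (hm (5, i, v0) (by simp))
  obtain ⟨e, he⟩ := exists_lb (hm (6, i, t.2.2) (by simp))
  obtain ⟨g, hg⟩ := exists_lb (hm (7, i, t.2.1) (by simp))
  obtain ⟨n, hn⟩ := exists_lb (hm (8, i, t.1) (by simp))
  have u1 := hub t.1 i 8 n a _ (by norm_num) (hm _ (by simp)) (hm _ (by simp)) hn ha
    (by simp [adjL, Ex]) (by simp [adjL, Ex])
  have u2 := hub t.2.1 i 7 g b _ (by norm_num) (hm _ (by simp)) (hm _ (by simp)) hg hb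
    (by simp [adjL, Ex]) (by simp [adjL, Ex])
  have u3 := hub t.2.2 i 6 e c _ (by norm_num) (hm _ (by simp)) (hm _ (by simp)) he hc
    (by simp [adjL, Ex]) (by simp [adjL, Ex])
  have t1 := tieL h hn ha hb (by simp [adjL, Ex]) (by simp [adjL, Ex]) (by simp [adjL, Ex])
  have t2 := tieL h hg hb hc (by simp [adjL, Ex]) (by simp [adjL, Ex]) (by simp [adjL, Ex])
  have t3 := tieL h he hc hd (by simp [adjL, Ex]) (by simp [adjL, Ex]) (by simp [adjL, Ex])
  have t4 := tieL h ha hc hd (by simp [adjL, Ex]) (by simp [adjL, Ex]) (by simp [adjL, Ex])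
  rw [t1] at u1
  rw [t2] at u2
  rw [t3, ← t4] at u3
  simp only [decide_eq_decide]
  rw [u1, u2, u3]
  rintro ⟨h1, h2⟩
  have hab : a ≠ b := by
    rintro rfl
    rw [ha] at hb
    simp at hb
  have hbc : b ≠ c := by
    rintro rfl
    rw [hb] at hc
    simp at hc
  by_cases h3 : lt a c
  · exact asymm_of lt h3 (trans_of lt (h2.2 h3) (h1.2 (h2.2 h3)))
  · have h4 : ¬ lt c b := fun h5 => h3 (h2.1 h5)
    have h5 : ¬ lt b a := fun h6 => h4 (h1.1 h6)
    exact h3 (trans_of lt ((h.not_lt hab.symm).1 h5) ((h.not_lt hbc.symm).1 h4))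

end Forward

section Backward

/-- The ranks of the vertices of the gadget of a clause. -/
def loc (u v w : Bool) (r : ℕ) : ℕ :=
  if r = 2 ∨ r = 5 then (if u then (if w then 14 else 15) else (if w then 11 else 12))
  else if r = 3 then 13
  else if r = 4 then (if v then (if w then 12 else 11) else (if w then 15 else 14))
  else if r = 6 then (if w then 1 else 20)
  else if r = 7 then (if v then 1 else 20)
  else (if u then 1 else 20)

theorem loc_ne : ∀ u v w : Bool, ¬ (u = v ∧ v = w) → ∀ p ∈ Ex, loc u v w p.1 ≠ loc u v w p.2 := by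
  decide

theorem loc_tie : ∀ u v w : Bool, ¬ (u = v ∧ v = w) → ∀ p ∈ Ex, ∀ q ∈ Ex, p.2 = q.1 →
    (p.1, q.2) ∉ Ex → (loc u v w p.1 < loc u v w p.2 ↔ loc u v w q.2 < loc u v w p.2) := by
  decide

/-- The rank of a label. -/
def rk (φ : List (NV × NV × NV)) (f : NV → Bool) (z : Lb) : ℕ :=
  if z.1 = 0 then (if f z.2.2 then 30 else 0)
  else if z.1 = 1 then 13
  else loc (f (φ.getD z.2.1 (v0, v0, v0)).1) (f (φ.getD z.2.1 (v0, v0, v0)).2.1)
    (f (φ.getD z.2.1 (v0, v0, v0)).2.2) z.1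

theorem inv_Ls {z : Lb} (hz : z ∈ Ls φ) : z.1 ≤ 8 ∧
    (2 ≤ z.1 → φ.getD z.2.1 (v0, v0, v0) ∈ φ) ∧
    (z.1 = 6 → z.2.2 = (φ.getD z.2.1 (v0, v0, v0)).2.2) ∧
    (z.1 = 7 → z.2.2 = (φ.getD z.2.1 (v0, v0, v0)).2.1) ∧
    (z.1 = 8 → z.2.2 = (φ.getD z.2.1 (v0, v0, v0)).1) := by
  obtain ⟨t, i, hi, hz⟩ := mem_Ls.1 hz
  have h1 : φ.getD i (v0, v0, v0) = t := by
    rw [List.getD_eq_getElem?_getD, hi, Option.getD_some]
  have h2 : t ∈ φ := List.mem_of_getElem? hi
  rcases hz with rfl | rfl | rfl | rfl | rfl | rfl | rfl | rfl | rfl | rfl | rfl | rfl | rfl <;>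
    simp [h2, hi]

theorem ex_range : ∀ p ∈ Ex, 2 ≤ p.1 ∧ p.2 ≠ 6 ∧ p.2 ≠ 7 ∧ p.2 ≠ 8 ∧ 2 ≤ p.2 ∧ p.2 ≤ 8 := by
  decide

theorem ex_conn : ∀ p ∈ Ex, ∀ u v w : Bool, ¬ (u = v ∧ v = w) →
    (p.1 = 6 → (loc u v w p.2 < loc u v w p.1 ↔ w = false)) ∧
    (p.1 = 7 → (loc u v w p.2 < loc u v w p.1 ↔ v = false)) ∧
    (p.1 = 8 → (loc u v w p.2 < loc u v w p.1 ↔ u = false)) := by
  decide

theorem adjL_iff (x y : Lb) : adjL x y = true ↔ (x.1 = 1 ∧ y.1 = 0 ∧ x.2.2 = y.2.2) ∨
    (x.1 = 0 ∧ 5 < y.1 ∧ x.2.2 = y.2.2) ∨ ((x.1, y.1) ∈ Ex ∧ x.2.1 = y.2.1) := by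
  unfold adjL
  simp only [Bool.or_eq_true, Bool.and_eq_true, decide_eq_true_eq]

theorem rk_conn {f : NV → Bool} {z : Lb} (hz : z ∈ Ls φ) (h5 : 5 < z.1) :
    rk φ f z = if f z.2.2 then 1 else 20 := by
  obtain ⟨h8, h0, e6, e7, e8⟩ := inv_Ls hz
  have h : z.1 = 6 ∨ z.1 = 7 ∨ z.1 = 8 := by omega
  unfold rk
  rw [if_neg (by omega), if_neg (by omega)]
  rcases h with h | h | h
  · rw [e6 h, h]; simp [loc]
  · rw [e7 h, h]; simp [loc]
  · rw [e8 h, h]; simp [loc]

theorem rk_loc {f : NV → Bool} {z : Lb} (h2 : 2 ≤ z.1) :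
    rk φ f z = loc (f (φ.getD z.2.1 (v0, v0, v0)).1) (f (φ.getD z.2.1 (v0, v0, v0)).2.1)
    (f (φ.getD z.2.1 (v0, v0, v0)).2.2) z.1 := by
  unfold rk
  rw [if_neg (by omega), if_neg (by omega)]

theorem backward (h : NAE φ) : IsComp (arc (red φ)) := by
  obtain ⟨f, hf⟩ := h
  refine isComp_of_rank (fun i => rk φ f (lb φ i)) ?_ ?_
  · intro i j hij
    rw [arc_iff, adjL_iff] at hij
    have hi := lb_mem i
    have hj := lb_mem j
    generalize lb φ i = x at *
    generalize lb φ j = y at *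
    rcases hij with ⟨h1, h2, h3⟩ | ⟨h1, h2, h3⟩ | ⟨h1, h2⟩
    · unfold rk
      rw [h1, h2]
      simp only [one_ne_zero, if_false, if_true]
      split_ifs <;> norm_num
    · rw [rk_conn hj h2]
      unfold rk
      rw [h1]
      simp only [if_true]
      split_ifs <;> norm_num
    · have h3 := ex_range _ h1
      rw [rk_loc h3.1, rk_loc h3.2.2.2.2.1, ← h2]
      exact loc_ne _ _ _ (hf _ ((inv_Ls hi).2.1 h3.1)) _ h1
  · intro i j k hij hjk hik
    rw [arc_iff, adjL_iff] at hij hjk hik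
    have hi := lb_mem i
    have hj := lb_mem j
    have hk := lb_mem k
    generalize lb φ i = x at *
    generalize lb φ j = y at *
    generalize lb φ k = z at *
    rcases hij with ⟨h1, h2, h3⟩ | ⟨h1, h2, h3⟩ | ⟨h1, h2⟩
    · rcases hjk with ⟨h4, h5, h6⟩ | ⟨h4, h5, h6⟩ | ⟨h4, h5⟩
      · omega
      · rw [rk_conn hk h5, ← h6]
        unfold rk
        rw [h1, h2]
        simp only [one_ne_zero, if_false, if_true]
        split_ifs <;> norm_num
      · have h6 := ex_range _ h4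
        simp only at h6
        omega
    · rcases hjk with ⟨h4, h5, h6⟩ | ⟨h4, h5, h6⟩ | ⟨h4, h5⟩
      · omega
      · omega
      · have h6 := ex_range _ h4
        have h7 := inv_Ls hj
        have h8 := hf _ (h7.2.1 h6.1)
        have h9 := ex_conn _ h4 _ _ _ h8
        rw [rk_loc h6.1, rk_loc h6.2.2.2.2.1, ← h5]
        have h10 : y.1 = 6 ∨ y.1 = 7 ∨ y.1 = 8 := by omega
        have h11 : rk φ f x = if f y.2.2 then 30 else 0 := by
          unfold rk
          rw [h1, if_pos rfl, h3]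
        rw [h11]
        rcases h10 with h10 | h10 | h10
        · rw [h9.1 h10, h7.2.2.1 h10, h10]
          generalize f _ = u
          generalize f _ = v
          generalize f _ = w
          cases u <;> cases v <;> cases w <;> simp [loc]
        · rw [h9.2.1 h10, h7.2.2.2.1 h10, h10]
          generalize f _ = u
          generalize f _ = v
          generalize f _ = w
          cases u <;> cases v <;> cases w <;> simp [loc]
        · rw [h9.2.2 h10, h7.2.2.2.2 h10, h10]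
          generalize f _ = u
          generalize f _ = v
          generalize f _ = w
          cases u <;> cases v <;> cases w <;> simp [loc]
    · rcases hjk with ⟨h4, h5, h6⟩ | ⟨h4, h5, h6⟩ | ⟨h4, h5⟩
      · have h6 := ex_range _ h1
        simp only at h6
        omega
      · have h6 := ex_range _ h1
        simp only at h6
        omega
      · have h6 := ex_range _ h1
        have h7 := ex_range _ h4
        rw [rk_loc h6.1, rk_loc h7.1, rk_loc h7.2.2.2.2.1, ← h5, ← h2]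
        refine loc_tie _ _ _ (hf _ ((inv_Ls hi).2.1 h6.1)) _ h1 _ h4 rfl ?_
        intro h8
        exact hik (Or.inr (Or.inr ⟨h8, h2.trans h5⟩))

end Backward

theorem red_correct (φ : List (NV × NV × NV)) : NAE φ ↔ CompDigraph (red φ) :=
  ⟨backward, forward⟩

/-- The digraphs of the reduction have no directed cycles. -/
theorem red_acyclic (φ : List (NV × NV × NV)) (i : Fin (red φ).length) :
    ¬ Relation.TransGen (arc (red φ)) i i := by
  let tp : ℕ → ℕ := fun r => if r = 1 then 0 else if r = 0 then 1 else if 5 < r then 2 else 3 + r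
  have h1 : ∀ i j, arc (red φ) i j → tp (lb φ i).1 < tp (lb φ j).1 := by
    intro i j hij
    rw [arc_iff, adjL_iff] at hij
    rcases hij with ⟨h1, h2, h3⟩ | ⟨h1, h2, h3⟩ | ⟨h1, h2⟩
    · simp only [tp, h1, h2]; norm_num
    · have h4 : (lb φ j).1 ≠ 1 := by omega
      have h5 : (lb φ j).1 ≠ 0 := by omega
      simp only [tp, h1, if_neg h4, if_neg h5, if_pos h2]
      norm_num
    · have key : ∀ p ∈ Ex, (if p.1 = 1 then 0 else if p.1 = 0 then 1 else
          if 5 < p.1 then 2 else 3 + p.1) < (if p.2 = 1 then 0 else if p.2 = 0 then 1 else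
          if 5 < p.2 then 2 else 3 + p.2) := by decide
      exact key _ h1
  have h2 : ∀ i j, Relation.TransGen (arc (red φ)) i j → tp (lb φ i).1 < tp (lb φ j).1 := by
    intro i j h
    induction h with
    | single h => exact h1 _ _ h
    | tail _ h ih => exact ih.trans (h1 _ _ h)
  exact fun h => lt_irrefl _ (h2 i i h)

end Q229.CD
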