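import Pool.Agent.Q229.CD.Cor

/-!
# The recognition problem for comparability digraphs is in NP, and the final statement
-/

set_option autoImplicit false

namespace Q229.CD

open Pool.Agent.NPC Pool.Agent.NPC.WC648 Pool.Agent.H622R2

/-- test for arcs -/
def arcT (M : List (List Bool)) (i j : ℕ) : Bool :=
  !decide (i = j) && (M.getD i []).getD j false

theorem arcT_iff (M : List (List Bool)) (i j : Fin M.length) : arcT M i j = true ↔ arc M i j := by
  unfold arcT arc
  simp only [Bool.and_eq_true, Bool.not_eq_true', decide_eq_false_iff_not]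
  rw [← Fin.ext_iff]

/-- test for two vertices and a list of numbers -/
def t2 (M : List (List Bool)) (w : List ℕ) (a b : ℕ) : Bool :=
  !arcT M a b || !decide (w.getD a 0 = w.getD b 0)

/-- test for three vertices and a list of numbers -/
def t3 (M : List (List Bool)) (w : List ℕ) (a b c : ℕ) : Bool :=
  !(arcT M a b && (arcT M b c && !arcT M a c)) ||
    decide (decide (w.getD a 0 < w.getD b 0) = decide (w.getD c 0 < w.getD b 0))

/-- the test of a certificate -/
def certT (x : List (List Bool) × List ℕ) : Bool :=
  (List.range x.1.length).all fun a => (List.range x.1.length).all fun b =>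
    t2 x.1 x.2 a b && (List.range x.1.length).all fun c => t3 x.1 x.2 a b c

theorem arcT_poly {α : Type} [TEnc α] {M : α → List (List Bool)} {i j : α → ℕ} (hM : Poly M)
    (hi : Poly i) (hj : Poly j) : Poly (fun a => arcT (M a) (i a) (j a)) := by
  unfold arcT
  exact Poly.and (Poly.not (Poly.decide_eq hi hj)) (Poly.getD (Poly.getD hM hi (pc [])) hj (pc false))

theorem t2_poly {α : Type} [TEnc α] {M : α → List (List Bool)} {w : α → List ℕ} {i j : α → ℕ}
    (hM : Poly M) (hw : Poly w) (hi : Poly i) (hj : Poly j) :
    Poly (fun a => t2 (M a) (w a) (i a) (j a)) := by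
  unfold t2
  exact Poly.or (Poly.not (arcT_poly hM hi hj)) (Poly.not (Poly.decide_eq
    (Poly.getD hw hi (pc 0)) (Poly.getD hw hj (pc 0))))

theorem t3_poly {α : Type} [TEnc α] {M : α → List (List Bool)} {w : α → List ℕ} {i j k : α → ℕ}
    (hM : Poly M) (hw : Poly w) (hi : Poly i) (hj : Poly j) (hk : Poly k) :
    Poly (fun a => t3 (M a) (w a) (i a) (j a) (k a)) := by
  unfold t3
  exact Poly.or (Poly.not (Poly.and (arcT_poly hM hi hj) (Poly.and (arcT_poly hM hj hk)
    (Poly.not (arcT_poly hM hi hk))))) (Poly.decide_eq
    (Poly.decide_lt (Poly.getD hw hi (pc 0)) (Poly.getD hw hj (pc 0)))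
    (Poly.decide_lt (Poly.getD hw hk (pc 0)) (Poly.getD hw hj (pc 0))))

theorem certT_poly : Poly certT := by
  have p1 : Poly (fun p : ((List (List Bool) × List ℕ) × ℕ) × ℕ => p.1.1.1) :=
    Poly.fst (Poly.fst (Poly.fst Poly.id))
  have p2 : Poly (fun p : ((List (List Bool) × List ℕ) × ℕ) × ℕ => p.1.1.2) :=
    Poly.snd (Poly.fst (Poly.fst Poly.id))
  have p3 : Poly (fun p : ((List (List Bool) × List ℕ) × ℕ) × ℕ => p.1.2) :=
    Poly.snd (Poly.fst Poly.id)
  have p4 : Poly (fun p : ((List (List Bool) × List ℕ) × ℕ) × ℕ => p.2) := Poly.snd Poly.id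
  have h3 : Poly (fun p : ((List (List Bool) × List ℕ) × ℕ) × ℕ =>
      (List.range p.1.1.1.length).all fun c => t3 p.1.1.1 p.1.1.2 p.1.2 p.2 c) :=
    Poly.all (p := fun (p : ((List (List Bool) × List ℕ) × ℕ) × ℕ) c =>
      t3 p.1.1.1 p.1.1.2 p.1.2 p.2 c) (Poly.range_length p1)
      (t3_poly (p1.comp (Poly.fst Poly.id)) (p2.comp (Poly.fst Poly.id))
        (p3.comp (Poly.fst Poly.id)) (p4.comp (Poly.fst Poly.id)) (Poly.snd Poly.id))
  have h2 : Poly (fun p : ((List (List Bool) × List ℕ) × ℕ) × ℕ => t2 p.1.1.1 p.1.1.2 p.1.2 p.2 &&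
      (List.range p.1.1.1.length).all fun c => t3 p.1.1.1 p.1.1.2 p.1.2 p.2 c) :=
    Poly.and (t2_poly p1 p2 p3 p4) h3
  have h1 : Poly (fun p : (List (List Bool) × List ℕ) × ℕ => (List.range p.1.1.length).all fun b =>
      t2 p.1.1 p.1.2 p.2 b && (List.range p.1.1.length).all fun c => t3 p.1.1 p.1.2 p.2 b c) :=
    Poly.all (p := fun (p : (List (List Bool) × List ℕ) × ℕ) b => t2 p.1.1 p.1.2 p.2 b &&
      (List.range p.1.1.length).all fun c => t3 p.1.1 p.1.2 p.2 b c)
      (Poly.range_length (Poly.fst (Poly.fst Poly.id))) h2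
  exact Poly.all (p := fun (x : List (List Bool) × List ℕ) a =>
    (List.range x.1.length).all fun b => t2 x.1 x.2 a b &&
      (List.range x.1.length).all fun c => t3 x.1 x.2 a b c) (Poly.range_length (Poly.fst Poly.id)) h1

theorem cert_iff (M : List (List Bool)) : CompDigraph M ↔ ∃ w : List ℕ,
    sz w ≤ (Polynomial.X * (Polynomial.C 4 * Polynomial.X + Polynomial.C 2) +
      Polynomial.C 1 : Polynomial ℕ).eval (sz M) ∧ certT (M, w) = true := by
  classical
  have hn : M.length < sz M := length_lt_sz M
  simp only [Polynomial.eval_add, Polynomial.eval_mul, Polynomial.eval_C, Polynomial.eval_X]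
  constructor
  · rintro ⟨lt, h⟩
    have hord := h.order
    let rk : Fin M.length → ℕ := fun x => (Finset.univ.filter fun y => lt y x).card
    have hrk : ∀ x y, lt x y → rk x < rk y := by
      intro x y hxy
      refine Finset.card_lt_card ?_
      rw [Finset.ssubset_iff_of_subset]
      · exact ⟨x, by simpa using hxy, by simpa using irrefl_of lt x⟩
      · intro z hz
        simp only [Finset.mem_filter, Finset.mem_univ, true_and] at hz ⊢
        exact trans_of lt hz hxy
    have hrk' : ∀ x y, lt x y ↔ rk x < rk y := by
      intro x y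
      refine ⟨hrk x y, fun h1 => ?_⟩
      rcases trichotomous_of lt x y with h2 | h2 | h2
      · exact h2
      · rw [h2] at h1
        exact absurd h1 (lt_irrefl _)
      · have := hrk y x h2
        omega
    have hlt : ∀ x, rk x < M.length := by
      intro x
      have h1 : rk x < (Finset.univ : Finset (Fin M.length)).card := by
        refine Finset.card_lt_card ?_
        rw [Finset.ssubset_iff_of_subset (Finset.filter_subset _ _)]
        exact ⟨x, Finset.mem_univ _, by simpa using irrefl_of lt x⟩
      simpa using h1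
    refine ⟨(List.finRange M.length).map rk, ?_, ?_⟩
    · have h1 := sz_list_lt M.length ((List.finRange M.length).map rk) (by
        intro x hx
        obtain ⟨v, _, rfl⟩ := List.mem_map.1 hx
        exact hlt v) (by simp)
      nlinarith
    · have hg : ∀ i : Fin M.length, ((List.finRange M.length).map rk).getD i 0 = rk i := by
        intro i
        rw [List.getD_eq_getElem _ _ (by simp)]
        simp
      unfold certT
      simp only [Bool.and_eq_true, List.all_eq_true, List.mem_range]
      intro a ha b hb
      refine ⟨?_, fun c hc => ?_⟩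
      · unfold t2
        rw [Bool.or_eq_true]
        by_cases h1 : arcT M a b = true
        · right
          have h2 := (arcT_iff M ⟨a, ha⟩ ⟨b, hb⟩).1 h1
          have h3 := hg ⟨a, ha⟩
          have h4 := hg ⟨b, hb⟩
          simp only at h3 h4
          rw [h3, h4]
          simp only [Bool.not_eq_true', decide_eq_false_iff_not]
          intro h5
          rcases trichotomous_of lt (⟨a, ha⟩ : Fin M.length) ⟨b, hb⟩ with h6 | h6 | h6
          · have := hrk _ _ h6
            omega
          · exact h2.1 h6
          · have := hrk _ _ h6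
            omega
        · left
          simpa using h1
      · unfold t3
        rw [Bool.or_eq_true]
        by_cases h1 : (arcT M a b && (arcT M b c && !arcT M a c)) = true
        · right
          simp only [Bool.and_eq_true, Bool.not_eq_true'] at h1
          obtain ⟨h1, h2, h3⟩ := h1
          have h1' := (arcT_iff M ⟨a, ha⟩ ⟨b, hb⟩).1 h1
          have h2' := (arcT_iff M ⟨b, hb⟩ ⟨c, hc⟩).1 h2
          have h3' : ¬ arc M ⟨a, ha⟩ ⟨c, hc⟩ := by
            intro h4
            have := (arcT_iff M ⟨a, ha⟩ ⟨c, hc⟩).2 h4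
            rw [h3] at this
            exact Bool.noConfusion this
          have h4 := h.tie (fun x hx => hx.1 rfl) h1' h2' h3'
          rw [hrk', hrk'] at h4
          have h5 := hg ⟨a, ha⟩
          have h6 := hg ⟨b, hb⟩
          have h7 := hg ⟨c, hc⟩
          simp only at h5 h6 h7
          rw [h5, h6, h7, decide_eq_true_eq, decide_eq_decide]
          exact h4
        · left
          rw [Bool.not_eq_true] at h1
          rw [h1]
          rfl
  · rintro ⟨w, -, h⟩
    unfold certT at h
    simp only [Bool.and_eq_true, List.all_eq_true, List.mem_range] at h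
    refine isComp_of_rank (fun i => w.getD i 0) ?_ ?_
    · intro x y hxy
      have h1 := (h x.1 x.2 y.1 y.2).1
      unfold t2 at h1
      rw [(arcT_iff M x y).2 hxy] at h1
      simpa using h1
    · intro x y z h1 h2 h3
      have h4 := (h x.1 x.2 y.1 y.2).2 z.1 z.2
      have h5 : arcT M x z = false := by
        rw [← Bool.not_eq_true, arcT_iff]
        exact h3
      unfold t3 at h4
      rw [(arcT_iff M x y).2 h1, (arcT_iff M y z).2 h2, h5] at h4
      simpa using h4

theorem inNPP : InNPP CompDigraph := inNPP_of certT_poly _ cert_iff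

/-- The digraph of the matrix has no directed cycle. -/
def Acyclic (M : List (List Bool)) : Prop := ∀ i, ¬ Relation.TransGen (arc M) i i

theorem hard : HardPr Acyclic CompDigraph :=
  hardI_NAE.toHardPr.trans red_poly (fun φ _ => red_acyclic φ) (fun φ _ => red_correct φ)

end Q229.CD
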