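import Pool.Agent.H648R3.WC.Nae
import Pool.Agent.Q229.Base

/-!
# Comparability digraphs: definitions and the reduction from not-all-equal satisfiability
-/

set_option autoImplicit false

namespace Q229.CD

open Pool.Agent.NPC Pool.Agent.NPC.WC648 Pool.Agent.H622R2

/-- The strict total order `lt` is a comparability ordering of the digraph with arc relation `A`. -/
structure CompOrdering {V : Type} (A : V → V → Prop) (lt : V → V → Prop) : Prop where
  order : IsStrictTotalOrder V lt
  fwd : ∀ x y z, lt x y → lt y z → A x y → A y z → A x z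
  bwd : ∀ x y z, lt x y → lt y z → A z y → A y x → A z x

/-- Comparability digraphs. -/
def IsComp {V : Type} (A : V → V → Prop) : Prop := ∃ lt, CompOrdering A lt

/-- The arcs of the digraph with adjacency matrix `M` (diagonal entries are ignored). -/
def arc (M : List (List Bool)) (i j : Fin M.length) : Prop :=
  i ≠ j ∧ (M.getD i []).getD j false = true

/-- The recognition problem for comparability digraphs. -/
def CompDigraph (M : List (List Bool)) : Prop := IsComp (arc M)

section Basic

variable {V : Type} {A : V → V → Prop} {lt : V → V → Prop}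

theorem CompOrdering.tie (h : CompOrdering A lt) (irr : ∀ x, ¬ A x x) {a b c : V} (h1 : A a b)
    (h2 : A b c) (h3 : ¬ A a c) : lt a b ↔ lt c b := by
  have := h.order
  have hab : a ≠ b := by rintro rfl; exact irr _ h1
  have hbc : b ≠ c := by rintro rfl; exact irr _ h2
  constructor
  · intro h4
    rcases trichotomous_of lt b c with h5 | h5 | h5
    · exact absurd (h.fwd a b c h4 h5 h1 h2) h3
    · exact absurd h5 hbc
    · exact h5
  · intro h4
    rcases trichotomous_of lt a b with h5 | h5 | h5
    · exact h5
    · exact absurd h5 hab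
    · exact absurd (h.bwd c b a h4 h5 h1 h2) h3

theorem CompOrdering.not_lt (h : CompOrdering A lt) {a b : V} (hab : a ≠ b) :
    ¬ lt a b ↔ lt b a := by
  have := h.order
  constructor
  · intro h1
    rcases trichotomous_of lt a b with h5 | h5 | h5
    · exact absurd h5 h1
    · exact absurd h5 hab
    · exact h5
  · intro h1 h2
    exact asymm_of lt h1 h2

/-- An ordering is obtained from a numbering such that adjacent vertices have different numbers. -/
theorem isComp_of_rank {N : ℕ} {A : Fin N → Fin N → Prop} (rk : Fin N → ℕ)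
    (h1 : ∀ x y, A x y → rk x ≠ rk y)
    (h2 : ∀ x y z, A x y → A y z → ¬ A x z → (rk x < rk y ↔ rk z < rk y)) : IsComp A := by
  have key : ∀ x y : Fin N, rk x < rk y → rk x * N + x.1 < rk y * N + y.1 := by
    intro x y h
    have h3 : (rk x + 1) * N ≤ rk y * N := Nat.mul_le_mul_right N h
    have h4 := x.2
    rw [Nat.add_mul, one_mul] at h3
    omega
  refine ⟨fun x y => rk x * N + x.1 < rk y * N + y.1, ?_, ?_, ?_⟩
  · refine { trichotomous := ?_, irrefl := ?_, trans := ?_ }
    · intro x y h5 h6
      by_contra hne
      rcases Nat.lt_trichotomy (rk x) (rk y) with h7 | h7 | h7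
      · exact h5 (key x y h7)
      · rw [h7] at h5 h6
        exact hne (Fin.ext (by omega))
      · exact h6 (key y x h7)
    · intro x h5
      exact lt_irrefl _ h5
    · intro x y z h5 h6
      exact lt_trans h5 h6
  · intro x y z h5 h6 h7 h8
    by_contra h9
    have h10 := h2 x y z h7 h8 h9
    have h11 := h1 x y h7
    have h12 := h1 y z h8
    have h13 : rk x < rk y := by
      by_contra h14
      have := key y x (by omega)
      omega
    have h15 := key z y (h10.1 h13)
    omega
  · intro x y z h5 h6 h7 h8
    by_contra h9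
    have h10 := h2 z y x h7 h8 h9
    have h11 := h1 z y h7
    have h12 := h1 y x h8
    have h13 : rk x < rk y := by
      by_contra h14
      have := key y x (by omega)
      omega
    have h15 := key z y (h10.2 h13)
    omega

end Basic

/-- The labels: role, number of the clause, variable.  The roles are: hub `0`, root of a hub `1`,
the vertices `a`, `b`, `c`, `d` of a clause `2`, `3`, `4`, `5`, and the connectors `e`, `g`, `n` of
a clause `6`, `7`, `8`. -/
abbrev Lb : Type := ℕ × ℕ × NV

/-- The arcs inside the gadget of a clause. -/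
def Ex : List (ℕ × ℕ) :=
  [(2, 3), (3, 4), (2, 4), (3, 5), (4, 5), (6, 4), (7, 3), (7, 5), (8, 2), (8, 4), (8, 5)]

/-- The arcs. -/
def adjL (x y : Lb) : Bool :=
  (decide (x.1 = 1) && (decide (y.1 = 0) && decide (x.2.2 = y.2.2))) ||
  ((decide (x.1 = 0) && (decide (5 < y.1) && decide (x.2.2 = y.2.2))) ||
  (decide ((x.1, y.1) ∈ Ex) && decide (x.2.1 = y.2.1)))

/-- a default variable -/
def v0 : NV := (0, 0, false)

/-- The labels of the vertices. -/
def Ls (φ : List (NV × NV × NV)) : List Lb :=
  φ.zipIdx.flatMap fun p =>
    [(0, 0, p.1.1), (0, 0, p.1.2.1), (0, 0, p.1.2.2), (1, 0, p.1.1), (1, 0, p.1.2.1),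
      (1, 0, p.1.2.2), (2, p.2, v0), (3, p.2, v0), (4, p.2, v0), (5, p.2, v0),
      (6, p.2, p.1.2.2), (7, p.2, p.1.2.1), (8, p.2, p.1.1)]

/-- The reduction. -/
def red (φ : List (NV × NV × NV)) : List (List Bool) := mat (Ls φ) adjL

theorem Ls_poly : Poly Ls := by
  unfold Ls v0
  fun_prop

theorem red_poly : Poly red := by
  unfold red
  refine mat_poly (adj := fun _ x y => adjL x y) Ls_poly ?_
  unfold adjL Ex
  fun_prop

end Q229.CD
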